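import Pool.Agent.Y830.HM.Final

/-!
# Volumes of hyperbolic 6-manifolds

Every positive multiple of `8π³/15` is the volume of a hyperbolic 6-manifold with infinite first
homology (so the set of Euler characteristics is the set of all negative integers, already for
these manifolds), and every positive even multiple is the volume of an ORIENTABLE hyperbolic
6-manifold with infinite first homology.
-/

namespace Pool.Agent.Results.MP_cb21b9_gt.OrientableVolumes

open Pool.Agent.W575.Hyp6 Pool.Agent.Y830.HM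

theorem result :
    (∀ k : ℕ, 1 ≤ k → ∃ Γ : Subgroup PosLor, IsManifoldGroup Γ k) ∧
    (∀ k : ℕ, 1 ≤ k → ∃ Γ : Subgroup PosLor,
      IsManifoldGroup Γ (2 * k) ∧ PreservesOrientation Γ) := by
  obtain ⟨Γ₁, h1, h2, h3⟩ := main
  have hi : Γ₁.index ≠ 0 := by
    rw [h1.2.2.2.2.1]
    norm_num
  obtain ⟨k₁, -, hk, hl⟩ := h2 Γ₁ le_rfl hi
  have hk1 : k₁ = 1 := by
    have e := h1.2.2.2.2.1
    rw [hk.2.2.2.2.1] at e
    omega
  constructor
  · intro k hk'
    obtain ⟨Γ', -, h⟩ := hl k hk'
    rw [hk1, one_mul] at h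
    exact ⟨Γ', h⟩
  · intro k hk'
    obtain ⟨Γ, -, h⟩ := h3 k hk'
    exact ⟨Γ, h⟩

end Pool.Agent.Results.MP_cb21b9_gt.OrientableVolumes
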